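import Mathlib
import Pool.Agent.Helper40.Lin.Defs

/-!
# PERM: a subspace charged minimally by an invariant measure is periodic
-/

open MeasureTheory
open scoped LinearAlgebra.Projectivization Matrix

namespace Pool.Agent.Helper46.Lin

open Pool.Agent.Helper40.Lin

/-- the action is continuous -/
theorem perm_cont {k : Type*} [NontriviallyNormedField k] (m : ℕ) (g : GL (Fin m) k) :
    Continuous (act g : PS k m → PS k m) := by
  unfold act Projectivization.map
  refine Continuous.quotient_map' (Continuous.subtype_mk ?_ _) _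
  exact (Continuous.matrix_mulVec continuous_const continuous_id).comp continuous_subtype_val

/-- the point of a vector -/
def permP {k : Type*} [Field k] {m : ℕ} (v : Fin m → k) (hv : v ≠ 0) : PS k m :=
  Projectivization.mk k v hv

theorem perm_ind {k : Type*} [Field k] {m : ℕ} (P : PS k m → Prop)
    (h : ∀ (v : Fin m → k) (hv : v ≠ 0), P (permP v hv)) (x : PS k m) : P x :=
  Projectivization.ind (P := P) h x

theorem perm_mk {k : Type*} [Field k] {m : ℕ} (g : GL (Fin m) k) (v : Fin m → k) (hv : v ≠ 0)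
    (hgv : g.1.mulVec v ≠ 0) :
    act g (permP v hv) = permP (g.1.mulVec v) hgv := rfl

theorem perm_ne {k : Type*} [Field k] {m : ℕ} (g : GL (Fin m) k) (v : Fin m → k) (hv : v ≠ 0) :
    g.1.mulVec v ≠ 0 := by
  intro h
  apply hv
  have h1 := congrArg (Matrix.mulVec (g⁻¹ : GL (Fin m) k).1) h
  rw [Matrix.mulVec_mulVec, ← Matrix.GeneralLinearGroup.coe_mul, inv_mul_cancel, Matrix.mulVec_zero]
    at h1
  simpa using h1

theorem perm_act_mul {k : Type*} [Field k] {m : ℕ} (g h : GL (Fin m) k) (x : PS k m) :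
    act (g * h) x = act g (act h x) := by
  revert x
  refine perm_ind _ fun v hv => ?_
  rw [perm_mk (g * h) v hv (perm_ne _ _ hv), perm_mk h v hv (perm_ne _ _ hv),
    perm_mk g _ (perm_ne _ _ hv) (perm_ne _ _ (perm_ne _ _ hv))]
  have h1 : (g * h : GL (Fin m) k).1.mulVec v = g.1.mulVec (h.1.mulVec v) := by
    rw [Matrix.mulVec_mulVec]
    rfl
  unfold permP
  congr 1

theorem perm_act_one {k : Type*} [Field k] {m : ℕ} (x : PS k m) :
    act (1 : GL (Fin m) k) x = x := by
  revert x
  refine perm_ind _ fun v hv => ?_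
  rw [perm_mk 1 v hv (perm_ne _ _ hv)]
  have h1 : (1 : GL (Fin m) k).1.mulVec v = v := by simp
  unfold permP
  congr 1

theorem perm_iter {k : Type*} [Field k] {m : ℕ} (t : GL (Fin m) k) (n : ℕ) (x : PS k m) :
    (act t)^[n] x = act (t ^ n) x := by
  induction n generalizing x with
  | zero => rw [pow_zero, perm_act_one]; rfl
  | succ n ih => rw [Function.iterate_succ_apply, ih, pow_succ, perm_act_mul]

theorem perm_PF {k : Type*} [Field k] {m : ℕ} (F : Submodule k (Fin m → k)) (v : Fin m → k)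
    (hv : v ≠ 0) : permP v hv ∈ (PF F : Set (PS k m)) ↔ v ∈ F := by
  change Projectivization.submodule (Projectivization.mk k v hv) ≤ F ↔ _
  rw [Projectivization.submodule_mk, Submodule.span_singleton_le_iff_mem]

theorem perm_pre {k : Type*} [Field k] {m : ℕ} (g : GL (Fin m) k) (F : Submodule k (Fin m → k))
    (x : PS k m) : act g x ∈ (PF F : Set (PS k m)) ↔
      x ∈ (PF (F.comap (Matrix.mulVecLin g.1)) : Set (PS k m)) := by
  revert x
  refine perm_ind _ fun v hv => ?_
  rw [perm_mk g v hv (perm_ne _ _ hv), perm_PF, perm_PF]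
  rfl

theorem perm_inf {k : Type*} [Field k] {m : ℕ} (F F' : Submodule k (Fin m → k))
    (x : PS k m) (h : x ∈ (PF F : Set (PS k m))) (h' : x ∈ (PF F' : Set (PS k m))) :
    x ∈ (PF (F ⊓ F') : Set (PS k m)) := by
  have h1 : Projectivization.submodule (K := k) (V := Fin m → k) x ≤ F := h
  have h2 : Projectivization.submodule (K := k) (V := Fin m → k) x ≤ F' := h'
  exact le_inf h1 h2

theorem PERM {k : Type*} [NontriviallyNormedField k] (m : ℕ) (t : GL (Fin m) k)
    (μ : Measure (PS k m)) [IsFiniteMeasure μ] (hμ : Measure.map (act t) μ = μ)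
    (F : Submodule k (Fin m → k)) (S : Set (PS k m)) (hS : MeasurableSet S) (hSF : S ⊆ PF F)
    (hpos : μ S ≠ 0) (hnull : ∀ F' < F, μ (S ∩ PF F') = 0) :
    ∃ p : ℕ, 1 ≤ p ∧ ∀ v ∈ F, (t ^ p : GL (Fin m) k).1.mulVec v ∈ F := by
  have hmp : MeasurePreserving (act t : PS k m → PS k m) μ μ :=
    ⟨(perm_cont m t).measurable, hμ⟩
  obtain ⟨p, hp, hne⟩ := hmp.conservative.exists_gt_measure_inter_ne_zero
    hS.nullMeasurableSet hpos 0
  refine ⟨p, hp, ?_⟩
  have hsub : S ∩ (act t : PS k m → PS k m)^[p] ⁻¹' S ⊆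
      S ∩ PF (F ⊓ F.comap (Matrix.mulVecLin (t ^ p : GL (Fin m) k).1)) := by
    rintro x ⟨hx1, hx2⟩
    refine ⟨hx1, perm_inf _ _ x (hSF hx1) ?_⟩
    rw [← perm_pre, ← perm_iter]
    exact hSF hx2
  have hF : F ⊓ F.comap (Matrix.mulVecLin (t ^ p : GL (Fin m) k).1) = F := by
    by_contra hcon
    have hlt : F ⊓ F.comap (Matrix.mulVecLin (t ^ p : GL (Fin m) k).1) < F :=
      lt_of_le_of_ne inf_le_left hcon
    exact hne (measure_mono_null hsub (hnull _ hlt))
  intro v hv
  have hv2 : v ∈ F ⊓ F.comap (Matrix.mulVecLin (t ^ p : GL (Fin m) k).1) := by rw [hF]; exact hv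
  exact hv2.2

end Pool.Agent.Helper46.Lin
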